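import Pool.Agent.H.MP_345ce5_an.D

set_option autoImplicit false

open Set Filter Topology Metric

namespace Pool.Agent.Results.MP_345ce5_an.No

/-- `E` is a peak set for the analytic Lipschitz class `A_α`. -/
def IsPeak (α : ℝ) (E : Set ℂ) : Prop :=
  ∃ f : ℂ → ℂ, DifferentiableOn ℂ f (ball 0 1) ∧ ContinuousOn f (closedBall 0 1) ∧
    (∃ C : ℝ, ∀ a ∈ sphere (0 : ℂ) 1, ∀ b ∈ sphere (0 : ℂ) 1, ‖f a - f b‖ ≤ C * ‖a - b‖ ^ α) ∧
    (∀ a ∈ E, f a = 1) ∧ ∀ a ∈ sphere (0 : ℂ) 1, a ∉ E → ‖f a‖ < 1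

/-- `E` is a zero set for the Gevrey class `G_α`. -/
def IsGevreyZero (α : ℝ) (E : Set ℂ) : Prop :=
  ∃ f : ℂ → ℂ, DifferentiableOn ℂ f (ball 0 1) ∧
    (∃ C : ℝ, ∀ n : ℕ, ∀ z ∈ ball (0 : ℂ) 1,
      ‖iteratedDeriv n f z‖ ≤ C ^ (n + 1) * (n.factorial : ℝ) ^ (1 + 1 / α)) ∧
    (∃ z ∈ ball (0 : ℂ) 1, f z ≠ 0) ∧
    ∀ n : ℕ, ∀ ζ ∈ E, Tendsto (iteratedDeriv n f) (𝓝[ball 0 1] ζ) (𝓝 0)

open Pool.Agent.H.MP_345ce5_an

theorem result (α : ℝ) (h0 : 0 < α) (h1 : α ≤ 1) :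
    ∃ E : Set ℂ, IsClosed E ∧ E ⊆ sphere 0 1 ∧ IsPeak α E ∧ ¬ IsGevreyZero α E := by
  rcases h1.lt_or_eq with h1 | rfl
  · obtain ⟨r, μ, N, κ, a1, a2, a3, a4, a5, a6, a7, a8, a9, b1, b2⟩ := params h0 h1
    have H := blocks r μ N a1 a2 a3 a4 a5 a6 a7 a8
    obtain ⟨c1, c2⟩ := H.peak h0 h1 a9 fun i => le_trans (by
      have := sub_pos.2 h1
      gcongr
      exact (pt_one (a1 _) (a2 _) i.2.2).2) (b1 i.1)
    have nE : ∀ z ∈ insert 1 (range fun i : Σ j, Fin (N j) => pt r N i.1 i.2), ‖z‖ = 1 := by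
      rintro z (rfl | ⟨i, rfl⟩)
      exacts [norm_one, H.hζ i]
    refine ⟨_, c1, fun z hz => mem_sphere_zero_iff_norm.2 (nE z hz), c2, ?_⟩
    rintro ⟨f, f1, ⟨C, f2⟩, ⟨z, hz, f3⟩, f4⟩
    refine f3 (notZ h0 _ nE r (fun j => 2 * (r j / N j)) a1 a2
      (fun i j h => by linarith [a3 i j h, a1 j]) (fun j => ?_) (fun j θ hθ => ?_) ?_ f f1 f2 f4 z hz)
    · have := a1 j
      have := a4 j
      positivity
    · obtain ⟨n, hn, h⟩ := cover r N (a1 j) (a4 j) hθ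
      exact ⟨_, Or.inr ⟨⟨j, ⟨n, hn⟩⟩, rfl⟩, by simpa using h⟩
    · simp only [b2, ← Finset.mul_sum]
      exact Real.tendsto_sum_range_one_div_nat_succ_atTop.const_mul_atTop (by positivity)
  · refine ⟨{1}, isClosed_singleton, by simp, ⟨fun z => (1 + z) / 2, by fun_prop, by fun_prop,
      ⟨1 / 2, fun a _ b _ => le_of_eq ?_⟩, by simp, fun a ha h => ?_⟩, ?_⟩
    · rw [← sub_div, add_sub_add_left_eq_sub, norm_div, Real.rpow_one]
      simp [div_eq_inv_mul]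
    · have h1 := mem_sphere_zero_iff_norm.1 ha
      have h2 : 0 < ‖1 - a‖ := norm_pos_iff.2 (sub_ne_zero.2 fun e => h e.symm)
      have h3 := parallelogram_law_with_norm ℂ 1 a
      rw [norm_div, div_lt_one (by simp)]
      rw [h1, norm_one] at h3
      refine lt_of_pow_lt_pow_left₀ 2 (norm_nonneg _) ?_
      simp only [Complex.norm_ofNat]
      nlinarith
    · rintro ⟨f, f1, ⟨C, f2⟩, ⟨z, hz, f3⟩, f4⟩
      refine f3 (notZ h0 {1} (by simp) (fun j => (1 / 2) ^ j) (fun j => 4 * (1 / 2) ^ j)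
        (fun j => by positivity) (fun j => pow_le_one₀ (by norm_num) (by norm_num))
        (fun i j h => ?_) (fun j => by positivity) (fun j θ hθ => ⟨1, rfl, ?_⟩) ?_ f f1 f2 f4 z hz)
      · have := pow_le_pow_of_le_one (show (0 : ℝ) ≤ 1 / 2 by norm_num) (by norm_num)
          (Nat.succ_le_of_lt h)
        rw [pow_succ] at this
        linarith
      · have h := (chord θ 0).1
        have : 0 < θ := lt_trans (by positivity) hθ.1
        rw [sub_zero, abs_of_pos this, show circleMap 0 1 0 = 1 by simp [circleMap]] at h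
        linarith [hθ.2]
      · have e : ∀ j : ℕ, ((1 : ℝ) / 2) ^ j * (4 * (1 / 2) ^ j) ^ (-(1 : ℝ)) = 1 / 4 := fun j => by
          rw [Real.rpow_neg_one]
          field_simp
        simp only [e, Finset.sum_const, Finset.card_range, nsmul_eq_mul]
        exact tendsto_natCast_atTop_atTop.atTop_mul_const (by norm_num)

end Pool.Agent.Results.MP_345ce5_an.No
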